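import Mathlib

/-!
Many odd primes with a small product (module L2 for helper23)
-/

set_option autoImplicit false

open Chebyshev Nat

namespace Pool.Agent.Zk63.AKL2

theorem numerics : ∃ C : ℝ, 0 < C ∧ ∀ k : ℕ, 3 ≤ k → ∃ T : Finset ℕ,
    (∀ p ∈ T, p.Prime ∧ p ≠ 2) ∧
    2 * Real.log k ≤ T.card * Real.log (3 / 2) ∧
    Real.log ((∏ p ∈ T, p : ℕ) : ℝ) ≤ C * Real.log k * (Real.log (Real.log k) + 1) := by
  refine ⟨200, by norm_num, fun k hk => ?_⟩
  obtain ⟨x, hx⟩ : ∃ x : ℝ, x = Real.log k := ⟨_, rfl⟩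
  rw [← hx]
  have hx1 : 1 ≤ x := by
    rw [hx, Real.le_log_iff_exp_le (by positivity)]
    have h1 : (3 : ℝ) ≤ k := by exact_mod_cast hk
    linarith [Real.exp_one_lt_d9]
  obtain ⟨L, hL⟩ : ∃ L : ℝ, L = Real.log x + 1 := ⟨_, rfl⟩
  rw [← hL]
  have hlx : 0 ≤ Real.log x := Real.log_nonneg hx1
  have hL1 : 1 ≤ L := by linarith
  obtain ⟨P, hP⟩ : ∃ P : ℕ, P = ⌈128 * (x * L)⌉₊ := ⟨_, rfl⟩
  have hxL : 1 ≤ x * L := one_le_mul_of_one_le_of_one_le hx1 hL1
  have hP1 : 128 * (x * L) ≤ P := hP ▸ Nat.le_ceil _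
  have hP2 : (P : ℝ) ≤ 128 * (x * L) + 1 := by
    have := Nat.ceil_lt_add_one (by positivity : 0 ≤ 128 * (x * L))
    rw [hP]
    exact this.le
  have hl2 := Real.log_two_gt_d9
  have hl2' := Real.log_two_lt_d9
  have hP0 : (0 : ℝ) < P := by linarith
  -- the logarithm of P
  have hlogP : Real.log P ≤ (8 * Real.log 2 + 2) * L := by
    have h1 : Real.log P ≤ Real.log (256 * (x * L)) := Real.log_le_log hP0 (by linarith)
    have h2 : Real.log (256 * (x * L)) = 8 * Real.log 2 + (Real.log x + Real.log L) := by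
      rw [Real.log_mul (by norm_num) (by positivity), Real.log_mul (by positivity) (by positivity)]
      have : Real.log 256 = 8 * Real.log 2 := by
        rw [show (256 : ℝ) = 2 ^ 8 by norm_num, Real.log_pow]
        norm_num
      rw [this]
    have h3 : Real.log L ≤ L - 1 := Real.log_le_sub_one_of_pos (by linarith)
    nlinarith
  have hlogP0 : 0 < Real.log P := Real.log_pos (by linarith)
  -- the number of primes
  have hpsi : (P : ℝ) / 2 ≤ (Nat.primeCounting P) * Real.log P := by
    refine le_trans ?_ ((psi_ge P).trans (psi_le_primeCounting_mul_log P))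
    have h1 : Real.log (((P : ℝ) + 1) / 16) ≤ ((P : ℝ) + 1) / 16 - 1 :=
      Real.log_le_sub_one_of_pos (by positivity)
    rw [Real.log_div (by positivity) (by norm_num)] at h1
    have h2 : Real.log 16 = 4 * Real.log 2 := by
      rw [show (16 : ℝ) = 2 ^ 4 by norm_num, Real.log_pow]
      norm_num
    rw [h2] at h1
    nlinarith
  have hpi : 7 * x ≤ Nat.primeCounting P := by
    have h1 : (P : ℝ) / 2 ≤ (Nat.primeCounting P) * ((8 * Real.log 2 + 2) * L) :=
      hpsi.trans (mul_le_mul_of_nonneg_left hlogP (Nat.cast_nonneg _))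
    by_contra h2
    push Not at h2
    have h3 : (Nat.primeCounting P : ℝ) * ((8 * Real.log 2 + 2) * L) ≤ 7 * x * ((8 * Real.log 2 + 2) * L) :=
      mul_le_mul_of_nonneg_right h2.le (by positivity)
    have h4 : 7 * x * ((8 * Real.log 2 + 2) * L) = 7 * (8 * Real.log 2 + 2) * (x * L) := by ring
    nlinarith
  have hcard : ((Nat.primeCounting P : ℕ) : ℝ) - 1 ≤ (((primesLE P).erase 2).card : ℝ) := by
    have h1 : (primesLE P).card = Nat.primeCounting P := primesLE_card_eq_primeCounting P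
    have h2 := Finset.pred_card_le_card_erase (s := primesLE P) (a := 2)
    rw [h1] at h2
    have h3 : Nat.primeCounting P ≤ ((primesLE P).erase 2).card + 1 := by omega
    have h4 : ((Nat.primeCounting P : ℕ) : ℝ) ≤ (((primesLE P).erase 2).card : ℝ) + 1 := by exact_mod_cast h3
    linarith
  refine ⟨(primesLE P).erase 2, fun p hp => ?_, ?_, ?_⟩
  · rw [Finset.mem_erase] at hp
    exact ⟨(mem_primesLE.mp hp.2).2, hp.1⟩
  · have h1 : (1 : ℝ) / 3 ≤ Real.log (3 / 2) := by
      have := Real.one_sub_inv_le_log_of_pos (by norm_num : (0 : ℝ) < 3 / 2)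
      norm_num at this ⊢
      linarith
    have h2 : 6 * x ≤ (((primesLE P).erase 2).card : ℝ) := by linarith
    nlinarith
  · have h1 : Real.log ((∏ p ∈ (primesLE P).erase 2, p : ℕ) : ℝ) ≤ θ P := by
      rw [theta_eq_sum_primesLE_log]
      push_cast
      rw [Real.log_prod (fun p hp => ?_)]
      · refine Finset.sum_le_sum_of_subset_of_nonneg (Finset.erase_subset _ _) fun p hp _ => ?_
        exact Real.log_natCast_nonneg p
      · have := (mem_primesLE.mp (Finset.mem_of_mem_erase hp)).2.pos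
        exact_mod_cast this.ne'
    have h2 := theta_le_log4_mul_x (x := (P : ℝ)) hP0.le
    have h3 : Real.log 4 = 2 * Real.log 2 := by
      rw [show (4 : ℝ) = 2 ^ 2 by norm_num, Real.log_pow]
      norm_num
    rw [h3] at h2
    have h4 : 200 * x * L = 200 * (x * L) := by ring
    rw [h4]
    nlinarith

end Pool.Agent.Zk63.AKL2
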