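import Mathlib

/-!
# Subgroup lattices which do not embed into subspace lattices over division rings

If an abelian group `A` has a section (a quotient of a subgroup) isomorphic to `(ℤ/n)³` with `n`
composite, then the lattice of subgroups of `A` has no lattice embedding into the lattice of
subspaces of a vector space over a division ring.

Proof idea. Let `f` be an embedding of `Sub((ℤ/n)³)`. For `x` in `f⟨e₁⟩` choose `y` in `f⟨e₂⟩` with
`x + y` in `f⟨e₁ + e₂⟩` and `z` in `f⟨e₃⟩` with `x + z` in `f⟨e₁ + e₃⟩`. By induction on `k`, `x + k y`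
lies in `f⟨e₁ + k e₂⟩`. For `k = n` this shows that `n = 0` in the division ring, so that `p = 0` for
some prime divisor `p` of `n`, and for `k = p` it shows that `f⟨e₁⟩` is contained in
`f⟨(n / p) e₁⟩`, so `n = p`.
-/

set_option autoImplicit false

namespace Pool.Agent.Zk63.CompositeSections

universe u v w

/-- The subgroup lattice of `A` has a lattice embedding (an injective map preserving binary meets
and joins) into the lattice of `D`-subspaces of `V`. -/
def Embeds (A : Type u) [AddCommGroup A] (D : Type v) [DivisionRing D] (V : Type w)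
    [AddCommGroup V] [Module D V] : Prop :=
  ∃ f : AddSubgroup A → Submodule D V, Function.Injective f ∧
    (∀ H K, f (H ⊓ K) = f H ⊓ f K) ∧ ∀ H K, f (H ⊔ K) = f H ⊔ f K

open AddSubgroup

/-- the standard basis and its elements -/
def vec (n : ℕ) (a b c : ZMod n) : Fin 3 → ZMod n := ![a, b, c]

theorem mem_zm {n : ℕ} {v w : Fin 3 → ZMod n} :
    w ∈ zmultiples v ↔ ∃ k : ZMod n, w = k • v := by
  rw [mem_zmultiples_iff]
  constructor
  · rintro ⟨k, rfl⟩
    exact ⟨(k : ZMod n), by rw [Int.cast_smul_eq_zsmul]⟩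
  · rintro ⟨k, rfl⟩
    obtain ⟨m, rfl⟩ := ZMod.intCast_surjective k
    exact ⟨m, by rw [Int.cast_smul_eq_zsmul]⟩

section core

variable {n : ℕ} {D : Type v} [DivisionRing D] {V : Type w} [AddCommGroup V] [Module D V]
  (f : AddSubgroup (Fin 3 → ZMod n) → Submodule D V)
  (hinf : ∀ H K, f (H ⊓ K) = f H ⊓ f K) (hsup : ∀ H K, f (H ⊔ K) = f H ⊔ f K)

include hinf in
theorem mono {H K : AddSubgroup (Fin 3 → ZMod n)} (h : H ≤ K) : f H ≤ f K := by
  have := hinf H K
  rw [inf_eq_left.mpr h] at this
  rw [this]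
  exact inf_le_right

include hinf hsup in
/-- the main computation -/
theorem key (x : V) (hx : x ∈ f (zmultiples (vec n 1 0 0))) :
    ∃ y ∈ f (zmultiples (vec n 0 1 0)), x + y ∈ f (zmultiples (vec n 1 1 0)) ∧
      ∀ k : ℕ, x + k • y ∈ f (zmultiples (vec n 1 k 0)) := by
  have h1 : x ∈ f (zmultiples (vec n 1 1 0)) ⊔ f (zmultiples (vec n 0 1 0)) := by
    rw [← hsup]
    refine mono f hinf ?_ hx
    rw [zmultiples_le, mem_sup]
    refine ⟨vec n 1 1 0, mem_zmultiples _, - vec n 0 1 0, neg_mem (mem_zmultiples _), ?_⟩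
    ext i
    fin_cases i <;> simp [vec]
  have h2 : x ∈ f (zmultiples (vec n 1 0 1)) ⊔ f (zmultiples (vec n 0 0 1)) := by
    rw [← hsup]
    refine mono f hinf ?_ hx
    rw [zmultiples_le, mem_sup]
    refine ⟨vec n 1 0 1, mem_zmultiples _, - vec n 0 0 1, neg_mem (mem_zmultiples _), ?_⟩
    ext i
    fin_cases i <;> simp [vec]
  obtain ⟨u, hu, y', hy', huy⟩ := Submodule.mem_sup.mp h1
  obtain ⟨t, ht, z', hz', htz⟩ := Submodule.mem_sup.mp h2
  set y := -y' with hyy
  set z := -z' with hzz
  have hy : y ∈ f (zmultiples (vec n 0 1 0)) := neg_mem hy'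
  have hz : z ∈ f (zmultiples (vec n 0 0 1)) := neg_mem hz'
  have hxy : x + y ∈ f (zmultiples (vec n 1 1 0)) := by
    have : x + y = u := by rw [← huy, hyy]; abel
    rw [this]; exact hu
  have hxz : x + z ∈ f (zmultiples (vec n 1 0 1)) := by
    have : x + z = t := by rw [← htz, hzz]; abel
    rw [this]; exact ht
  have hyz : y - z ∈ f (zmultiples (vec n 0 1 (-1))) := by
    have h3 : y - z ∈ f ((zmultiples (vec n 0 1 0) ⊔ zmultiples (vec n 0 0 1)) ⊓
        (zmultiples (vec n 1 1 0) ⊔ zmultiples (vec n 1 0 1))) := by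
      rw [hinf, hsup, hsup]
      refine ⟨sub_mem (Submodule.mem_sup_left hy) (Submodule.mem_sup_right hz), ?_⟩
      have : y - z = (x + y) - (x + z) := by abel
      rw [this]
      exact sub_mem (Submodule.mem_sup_left hxy) (Submodule.mem_sup_right hxz)
    refine mono f hinf ?_ h3
    rintro w ⟨hw1, hw2⟩
    obtain ⟨a, ha, b, hb, rfl⟩ := mem_sup.mp hw1
    obtain ⟨c, hc, d, hd, hcd⟩ := mem_sup.mp hw2
    rw [mem_zm] at ha hb hc hd ⊢
    obtain ⟨a, rfl⟩ := ha
    obtain ⟨b, rfl⟩ := hb
    obtain ⟨c, rfl⟩ := hc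
    obtain ⟨d, rfl⟩ := hd
    have e0 := congrFun hcd 0
    have e1 := congrFun hcd 1
    have e2 := congrFun hcd 2
    simp [vec] at e0 e1 e2
    refine ⟨a, ?_⟩
    ext i
    fin_cases i
    · simp [vec]
    · simp [vec]
    · simp [vec]
      linear_combination e0 - e1 - e2
  refine ⟨y, hy, hxy, fun k => ?_⟩
  induction k with
  | zero => simpa using hx
  | succ k ih =>
    have h4 : x + k • y + z ∈ f (zmultiples (vec n 1 k 1)) := by
      have h5 : x + k • y + z ∈ f ((zmultiples (vec n 1 k 0) ⊔ zmultiples (vec n 0 0 1)) ⊓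
          (zmultiples (vec n 1 0 1) ⊔ zmultiples (vec n 0 1 0))) := by
        rw [hinf, hsup, hsup]
        refine ⟨add_mem (Submodule.mem_sup_left ih) (Submodule.mem_sup_right hz), ?_⟩
        have : x + k • y + z = (x + z) + k • y := by abel
        rw [this]
        exact add_mem (Submodule.mem_sup_left hxz)
          (Submodule.mem_sup_right (nsmul_mem hy k))
      refine mono f hinf ?_ h5
      rintro w ⟨hw1, hw2⟩
      obtain ⟨a, ha, b, hb, rfl⟩ := mem_sup.mp hw1
      obtain ⟨c, hc, d, hd, hcd⟩ := mem_sup.mp hw2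
      rw [mem_zm] at ha hb hc hd ⊢
      obtain ⟨a, rfl⟩ := ha
      obtain ⟨b, rfl⟩ := hb
      obtain ⟨c, rfl⟩ := hc
      obtain ⟨d, rfl⟩ := hd
      have e0 := congrFun hcd 0
      have e1 := congrFun hcd 1
      have e2 := congrFun hcd 2
      simp [vec] at e0 e1 e2
      refine ⟨a, ?_⟩
      ext i
      fin_cases i
      · simp [vec]
      · simp [vec]
      · simp [vec]
        linear_combination e0 - e2
    have h6 : x + (k + 1) • y ∈ f ((zmultiples (vec n 1 k 1) ⊔ zmultiples (vec n 0 1 (-1))) ⊓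
        (zmultiples (vec n 1 0 0) ⊔ zmultiples (vec n 0 1 0))) := by
      rw [hinf, hsup, hsup]
      refine ⟨?_, add_mem (Submodule.mem_sup_left hx)
        (Submodule.mem_sup_right (nsmul_mem hy (k + 1)))⟩
      have : x + (k + 1) • y = (x + k • y + z) + (y - z) := by
        rw [add_smul, one_smul]; abel
      rw [this]
      exact add_mem (Submodule.mem_sup_left h4) (Submodule.mem_sup_right hyz)
    refine mono f hinf ?_ h6
    rintro w ⟨hw1, hw2⟩
    obtain ⟨a, ha, b, hb, rfl⟩ := mem_sup.mp hw1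
    obtain ⟨c, hc, d, hd, hcd⟩ := mem_sup.mp hw2
    rw [mem_zm] at ha hb hc hd ⊢
    obtain ⟨a, rfl⟩ := ha
    obtain ⟨b, rfl⟩ := hb
    obtain ⟨c, rfl⟩ := hc
    obtain ⟨d, rfl⟩ := hd
    have e0 := congrFun hcd 0
    have e1 := congrFun hcd 1
    have e2 := congrFun hcd 2
    simp [vec] at e0 e1 e2
    refine ⟨a, ?_⟩
    ext i
    fin_cases i
    · simp [vec]
    · simp [vec]
      linear_combination e2
    · simp [vec]
      linear_combination - e2

end core

/-- If `Sub((ℤ/n)³)` embeds, then `n` is prime. -/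
theorem prime_of_embeds {n : ℕ} (hn : 2 ≤ n) {D : Type v} [DivisionRing D] {V : Type w}
    [AddCommGroup V] [Module D V] (h : Embeds (Fin 3 → ZMod n) D V) : n.Prime := by
  obtain ⟨f, hf, hinf, hsup⟩ := h
  have : Fact (1 < n) := ⟨hn⟩
  have : NeZero n := ⟨by omega⟩
  have hrefl : ∀ H K, f H ≤ f K → H ≤ K := by
    intro H K h
    have h1 : f (H ⊓ K) = f H := by rw [hinf]; exact inf_eq_left.mpr h
    exact inf_eq_left.mp (hf h1)
  have hD : (n : D) = 0 := by
    by_contra hne
    have h1 : f (zmultiples (vec n 1 0 0)) ≤ f ⊥ := by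
      intro x hx
      obtain ⟨y, hy, hxy, hk⟩ := key f hinf hsup x hx
      have h2 := hk n
      rw [ZMod.natCast_self] at h2
      have h3 : n • y ∈ f (zmultiples (vec n 1 0 0) ⊓ zmultiples (vec n 0 1 0)) := by
        rw [hinf]
        refine ⟨?_, nsmul_mem hy n⟩
        have : n • y = (x + n • y) - x := by abel
        rw [this]
        exact sub_mem h2 hx
      have h4 : y ∈ f ⊥ := by
        have h5 : (n : D) • y ∈ f ⊥ := by
          rw [Nat.cast_smul_eq_nsmul]
          refine mono f hinf ?_ h3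
          intro w hw
          obtain ⟨hw1, hw2⟩ := mem_inf.mp hw
          rw [mem_zm] at hw1 hw2
          obtain ⟨a, rfl⟩ := hw1
          obtain ⟨b, hb⟩ := hw2
          have e0 := congrFun hb 0
          simp [vec] at e0
          rw [e0, zero_smul]
          exact zero_mem _
        have h6 := (f ⊥).smul_mem ((n : D)⁻¹) h5
        rwa [smul_smul, inv_mul_cancel₀ hne, one_smul] at h6
      have h7 : x ∈ f (zmultiples (vec n 1 0 0) ⊓ zmultiples (vec n 1 1 0)) := by
        rw [hinf]
        refine ⟨hx, ?_⟩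
        have : x = (x + y) - y := by abel
        rw [this]
        exact sub_mem hxy (mono f hinf bot_le h4)
      refine mono f hinf ?_ h7
      intro w hw
      obtain ⟨hw1, hw2⟩ := mem_inf.mp hw
      rw [mem_zm] at hw1 hw2
      obtain ⟨a, rfl⟩ := hw1
      obtain ⟨b, hb⟩ := hw2
      have e0 := congrFun hb 0
      have e1 := congrFun hb 1
      simp [vec] at e0 e1
      rw [e0, ← e1, zero_smul]
      exact zero_mem _
    have h8 := hrefl _ _ h1 (mem_zmultiples _)
    rw [mem_bot] at h8
    have := congrFun h8 0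
    simp [vec] at this
  obtain ⟨p, hp⟩ := CharP.exists D
  have hpn : p ∣ n := (CharP.cast_eq_zero_iff D p n).mp hD
  have hp0 : p ≠ 0 := by
    rintro rfl
    rw [zero_dvd_iff] at hpn
    omega
  have hprime : p.Prime := (CharP.char_is_prime_or_zero D p).resolve_right hp0
  obtain ⟨m, rfl⟩ := hpn
  have h1 : f (zmultiples (vec (p * m) 1 0 0)) ≤
      f (zmultiples (vec (p * m) (m : ZMod (p * m)) 0 0)) := by
    intro x hx
    obtain ⟨y, hy, hxy, hk⟩ := key f hinf hsup x hx
    have h2 := hk p
    have h3 : p • y = 0 := by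
      rw [← Nat.cast_smul_eq_nsmul D, CharP.cast_eq_zero D p, zero_smul]
    rw [h3, add_zero] at h2
    have h4 : x ∈ f (zmultiples (vec (p * m) 1 0 0) ⊓
        zmultiples (vec (p * m) 1 (p : ZMod (p * m)) 0)) := by
      rw [hinf]
      exact ⟨hx, h2⟩
    refine mono f hinf ?_ h4
    intro w hw
    obtain ⟨hw1, hw2⟩ := mem_inf.mp hw
    rw [mem_zm] at hw1 hw2
    rw [mem_zm]
    obtain ⟨a, rfl⟩ := hw1
    obtain ⟨b, hb⟩ := hw2
    have e0 := congrFun hb 0
    have e1 := congrFun hb 1
    simp [vec] at e0 e1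
    rw [← e0] at e1
    obtain ⟨a', rfl⟩ := ZMod.natCast_zmod_surjective a
    have h5 : ((a' * p : ℕ) : ZMod (p * m)) = 0 := by
      push_cast
      exact e1.symm
    rw [ZMod.natCast_eq_zero_iff] at h5
    have h6 : m ∣ a' := by
      rw [mul_comm a' p] at h5
      exact Nat.dvd_of_mul_dvd_mul_left hprime.pos h5
    obtain ⟨c, rfl⟩ := h6
    refine ⟨(c : ZMod (p * m)), ?_⟩
    ext i
    fin_cases i
    · simp [vec, mul_comm]
    · simp [vec]
    · simp [vec]
  have h2 := hrefl _ _ h1 (mem_zmultiples _)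
  rw [mem_zm] at h2
  obtain ⟨k, hk⟩ := h2
  have e0 := congrFun hk 0
  simp [vec] at e0
  have h3 : IsUnit ((m : ℕ) : ZMod (p * m)) := IsUnit.of_mul_eq_one k ((mul_comm _ _).trans e0.symm)
  rw [ZMod.isUnit_iff_coprime] at h3
  have h4 : m = 1 := by
    have : m ∣ 1 := by
      rw [← Nat.Coprime.gcd_eq_one h3]
      exact Nat.dvd_gcd dvd_rfl (dvd_mul_left _ _)
    exact Nat.dvd_one.mp this
  rw [h4, mul_one]
  exact hprime

/-- The lattice embeds if `n` is prime. -/
theorem embeds_of_prime {n : ℕ} (hn : n.Prime) :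
    ∃ (D : Type) (_ : DivisionRing D) (V : Type) (_ : AddCommGroup V) (_ : Module D V),
      Embeds (Fin 3 → ZMod n) D V := by
  have : Fact n.Prime := ⟨hn⟩
  refine ⟨ZMod n, inferInstance, Fin 3 → ZMod n, inferInstance, inferInstance,
    AddSubgroup.toZModSubmodule n, (AddSubgroup.toZModSubmodule n).injective, ?_, ?_⟩
  · intro H K
    exact map_inf _ _ _
  · intro H K
    exact map_sup _ _ _

/-- An embedding of the subgroup lattice of `A` gives one for the subgroup lattice of a section. -/
theorem embeds_section {A : Type u} [AddCommGroup A] {D : Type v} [DivisionRing D] {V : Type w}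
    [AddCommGroup V] [Module D V] (h : Embeds A D V) {B : Type*} [AddCommGroup B]
    (H : AddSubgroup A) (π : H →+ B) (hπ : Function.Surjective π) : Embeds B D V := by
  obtain ⟨f, hf, hinf, hsup⟩ := h
  refine ⟨fun S => f ((S.comap π).map H.subtype), ?_, ?_, ?_⟩
  · intro S T hST
    have h1 := hf hST
    have h2 := AddSubgroup.map_injective H.subtype_injective h1
    exact AddSubgroup.comap_injective hπ h2
  · intro S T
    show f (((S ⊓ T).comap π).map H.subtype) = _
    rw [AddSubgroup.comap_inf, AddSubgroup.map_inf _ _ _ H.subtype_injective, hinf]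
  · intro S T
    show f (((S ⊔ T).comap π).map H.subtype) = _
    rw [← hsup, ← AddSubgroup.map_sup, AddSubgroup.comap_sup_eq π S T hπ]

/-- Let `n ≥ 2` be composite and let the abelian group `A` have a section (a homomorphic image of a
subgroup) isomorphic to `(ℤ/n)³`. Then for every division ring `D` and every `D`-vector
space `V` there is no lattice embedding of `Sub(A)` into `Sub_D(V)`. In particular this holds for the
finite groups `A = (ℤ/n)³`, `n` composite; for `n ≥ 2` the lattice `Sub((ℤ/n)³)` has an embedding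
into some `Sub_D(V)` if and only if `n` is prime. -/
theorem withdrawn :
    (∀ (A : Type u) [AddCommGroup A] (n : ℕ), 2 ≤ n → ¬ n.Prime →
      (∃ (H : AddSubgroup A) (π : H →+ (Fin 3 → ZMod n)), Function.Surjective π) →
      ∀ (D : Type v) [DivisionRing D] (V : Type w) [AddCommGroup V] [Module D V],
        ¬ Embeds A D V) ∧
    (∀ n : ℕ, 2 ≤ n → Finite (Fin 3 → ZMod n) ∧
      ((∃ (D : Type) (_ : DivisionRing D) (V : Type) (_ : AddCommGroup V) (_ : Module D V),
        Embeds (Fin 3 → ZMod n) D V) ↔ n.Prime)) := by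
  constructor
  · rintro A _ n hn hp ⟨H, π, hπ⟩ D _ V _ _ h
    exact hp (prime_of_embeds hn (embeds_section h H π hπ))
  · intro n hn
    have : NeZero n := ⟨by omega⟩
    refine ⟨inferInstance, ?_, embeds_of_prime⟩
    rintro ⟨D, _, V, _, _, h⟩
    exact prime_of_embeds hn h

end Pool.Agent.Zk63.CompositeSections
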